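import Pool.Agent.WIR.StmtsC

/-!
Row HFR of the squad WIR: the bound for the high frequencies.
-/

namespace Pool.Agent.WIR.H51

open scoped BigOperators
open Finset Pool.Agent.WIR

/-- the fibres of `pj N (N + 1)` have at most three elements -/
theorem fib_card (N : ℕ) (z : ZMod (3 ^ N)) :
    (Finset.univ.filter (fun y : ZMod (3 ^ (N + 1)) => pj N (N + 1) y = z)).card ≤ 3 := by
  have h : (Finset.univ.filter (fun y : ZMod (3 ^ (N + 1)) => pj N (N + 1) y = z)).card ≤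
      (Finset.range 3).card := by
    refine Finset.card_le_card_of_injOn (fun y => y.val / 3 ^ N) ?_ ?_
    · intro y _
      simp only [Finset.coe_range, Set.mem_Iio]
      rw [Nat.div_lt_iff_lt_mul (by positivity)]
      calc y.val < 3 ^ (N + 1) := ZMod.val_lt y
        _ = 3 * 3 ^ N := by ring
    · intro y hy y' hy' h
      have h1 := (Finset.mem_filter.1 hy).2
      have h2 := (Finset.mem_filter.1 hy').2
      have h3 : ((y.val : ℕ) : ZMod (3 ^ N)) = ((y'.val : ℕ) : ZMod (3 ^ N)) := h1.trans h2.symm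
      rw [ZMod.natCast_eq_natCast_iff] at h3
      have h4 : y.val % 3 ^ N = y'.val % 3 ^ N := h3
      have h5 : y.val / 3 ^ N = y'.val / 3 ^ N := h
      apply ZMod.val_injective
      rw [← Nat.div_add_mod y.val (3 ^ N), ← Nat.div_add_mod y'.val (3 ^ N), h5, h4]
  simpa using h

theorem hf_sum (N : ℕ) (g : ZMod (3 ^ (N + 1)) → ℝ) :
    ∑ x, |HF N g x| ≤ 2 * ∑ x, |g x| := by
  have h1 : ∀ x, |HF N g x| ≤ |g x| + (1 / 3) *
      ∑ y ∈ Finset.univ.filter (fun y => pj N (N + 1) y = pj N (N + 1) x), |g y| := by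
    intro x
    unfold HF
    have h2 : |(1 / 3 : ℝ) * ∑ y ∈ Finset.univ.filter
        (fun y => pj N (N + 1) y = pj N (N + 1) x), g y| ≤ (1 / 3) *
        ∑ y ∈ Finset.univ.filter (fun y => pj N (N + 1) y = pj N (N + 1) x), |g y| := by
      rw [abs_mul, abs_of_pos (by norm_num : (0 : ℝ) < 1 / 3)]
      exact mul_le_mul_of_nonneg_left (Finset.abs_sum_le_sum_abs _ _) (by norm_num)
    exact (abs_sub _ _).trans (add_le_add le_rfl h2)
  have h2 : ∑ x, ∑ y ∈ Finset.univ.filter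
      (fun y => pj N (N + 1) y = pj N (N + 1) x), |g y| ≤ 3 * ∑ y, |g y| := by
    simp only [Finset.sum_filter]
    rw [Finset.sum_comm, Finset.mul_sum]
    refine Finset.sum_le_sum fun y _ => ?_
    have h3 : ∑ x, (if pj N (N + 1) y = pj N (N + 1) x then |g y| else 0) =
        ((Finset.univ.filter
          (fun x => pj N (N + 1) x = pj N (N + 1) y)).card : ℝ) * |g y| := by
      rw [← Finset.sum_filter, Finset.sum_const, nsmul_eq_mul]
      congr 3
      ext x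
      simp only [Finset.mem_filter, Finset.mem_univ, true_and]
      exact eq_comm
    rw [h3]
    refine mul_le_mul_of_nonneg_right ?_ (abs_nonneg _)
    exact_mod_cast fib_card N _
  calc ∑ x, |HF N g x| ≤ ∑ x, (|g x| + (1 / 3) *
      ∑ y ∈ Finset.univ.filter (fun y => pj N (N + 1) y = pj N (N + 1) x), |g y|) :=
        Finset.sum_le_sum fun x _ => h1 x
    _ = ∑ x, |g x| + (1 / 3) * ∑ x, ∑ y ∈ Finset.univ.filter
      (fun y => pj N (N + 1) y = pj N (N + 1) x), |g y| := by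
        rw [Finset.sum_add_distrib, Finset.mul_sum]
    _ ≤ ∑ x, |g x| + (1 / 3) * (3 * ∑ y, |g y|) := by
        gcongr
    _ = 2 * ∑ x, |g x| := by ring

theorem hf_lin (N : ℕ) (T : Finset ℕ) (g : ℕ → ZMod (3 ^ (N + 1)) → ℝ)
    (b : ZMod (3 ^ (N + 1)) → ℝ) (x : ZMod (3 ^ (N + 1))) :
    HF N (fun x => ∑ t ∈ T, g t x + b x) x = ∑ t ∈ T, HF N (g t) x + HF N b x := by
  unfold HF
  rw [Finset.sum_add_distrib, Finset.sum_comm, Finset.sum_sub_distrib, mul_add, Finset.mul_sum]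
  ring

open Classical in
/-- words with `|O| ∈ S` -/
noncomputable def W (M : ℕ) (S : Set ℕ) : Finset (Finset ℕ) :=
  (Finset.Icc 1 M).powerset.filter (fun O => O.card ∈ S)

open Classical in
/-- words of the kind `Pr` and of value `x` -/
noncomputable def cP (M n : ℕ) (S : Set ℕ) (Pr : Finset ℕ → Prop) (x : ZMod (3 ^ n)) : ℝ :=
  ∑ O ∈ W M S, if (Pr O ∧ FO n O = x) then 1 else 0

open Classical in
theorem cP_card (M n : ℕ) (S : Set ℕ) (Pr : Finset ℕ → Prop) (x : ZMod (3 ^ n)) :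
    cP M n S Pr x = (((W M S).filter (fun O => Pr O ∧ FO n O = x)).card : ℝ) := by
  rw [Finset.natCast_card_filter]
  unfold cP
  rfl

theorem cnt_eq (M n : ℕ) (S : Set ℕ) (x : ZMod (3 ^ n)) :
    (cnt M S n x : ℝ) = cP M n S (fun _ => True) x := by
  classical
  rw [cP_card]
  unfold cnt W
  congr 2
  ext O
  simp only [Finset.mem_filter]
  tauto

theorem fg_eq (M L n t : ℕ) (S : Set ℕ) (x : ZMod (3 ^ n)) :
    fg M L S n t x = cP M n S (fun O => O ∩ Finset.Icc 1 L ∈ gd n L t) x := by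
  classical
  rw [cP_card]
  unfold fg W
  congr 2
  ext O
  simp only [Finset.mem_filter]
  tauto

theorem cP_sum (M n : ℕ) (S : Set ℕ) (Pr : Finset ℕ → Prop) :
    ∃ F : Finset (Finset ℕ), (∀ O ∈ F, O ⊆ Finset.Icc 1 M ∧ Pr O) ∧
      ∑ x, cP M n S Pr x ≤ (F.card : ℝ) := by
  classical
  refine ⟨(W M S).filter Pr, ?_, ?_⟩
  · intro O hO
    unfold W at hO
    rw [Finset.mem_filter, Finset.mem_filter, Finset.mem_powerset] at hO
    exact ⟨hO.1.1, hO.2⟩
  unfold cP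
  rw [Finset.sum_comm]
  have h1 : ∀ O ∈ W M S, ∑ x, (if (Pr O ∧ FO n O = x) then (1 : ℝ) else 0) =
      if Pr O then 1 else 0 := by
    intro O _
    by_cases h : Pr O
    · simp [h]
    · simp [h]
  rw [Finset.sum_congr rfl h1, Finset.sum_boole]

theorem cP_nonneg (M n : ℕ) (S : Set ℕ) (Pr : Finset ℕ → Prop) (x : ZMod (3 ^ n)) :
    0 ≤ cP M n S Pr x := by
  classical
  unfold cP
  exact Finset.sum_nonneg fun O _ => by split_ifs <;> norm_num

theorem bad_card (M L : ℕ) (B F : Finset (Finset ℕ))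
    (hF : ∀ O ∈ F, O ⊆ Finset.Icc 1 M ∧ O ∩ Finset.Icc 1 L ∈ B) :
    F.card ≤ B.card * 2 ^ (M - L) := by
  have h : F.card ≤ (B ×ˢ (Finset.Icc (L + 1) M).powerset).card := by
    refine Finset.card_le_card_of_injOn
      (fun O => (O ∩ Finset.Icc 1 L, O ∩ Finset.Icc (L + 1) M)) ?_ ?_
    · intro O hO
      exact Finset.mem_coe.2 (Finset.mem_product.2
        ⟨(hF O hO).2, Finset.mem_powerset.2 Finset.inter_subset_right⟩)
    · intro O hO O' hO' he
      have h1 := (hF O hO).1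
      have h2 := (hF O' hO').1
      have e1 : O ∩ Finset.Icc 1 L = O' ∩ Finset.Icc 1 L := congrArg Prod.fst he
      have e2 : O ∩ Finset.Icc (L + 1) M = O' ∩ Finset.Icc (L + 1) M := congrArg Prod.snd he
      have key : ∀ A B : Finset ℕ, A ⊆ Finset.Icc 1 M → A ∩ Finset.Icc 1 L = B ∩ Finset.Icc 1 L →
          A ∩ Finset.Icc (L + 1) M = B ∩ Finset.Icc (L + 1) M → A ⊆ B := by
        intro A B hA h1 h2 p hp
        have hp1 := Finset.mem_Icc.1 (hA hp)
        rcases Nat.lt_or_ge L p with h | h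
        · have : p ∈ A ∩ Finset.Icc (L + 1) M :=
            Finset.mem_inter.2 ⟨hp, Finset.mem_Icc.2 ⟨h, hp1.2⟩⟩
          rw [h2] at this
          exact (Finset.mem_inter.1 this).1
        · have : p ∈ A ∩ Finset.Icc 1 L :=
            Finset.mem_inter.2 ⟨hp, Finset.mem_Icc.2 ⟨hp1.1, h⟩⟩
          rw [h1] at this
          exact (Finset.mem_inter.1 this).1
      exact Finset.Subset.antisymm (key O O' h1 e1 e2) (key O' O h2 e1.symm e2.symm)
  rw [Finset.card_product, Finset.card_powerset, Nat.card_Icc] at h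
  have e : M + 1 - (L + 1) = M - L := by omega
  rwa [e] at h

open Classical in
/-- the bad beginnings -/
noncomputable def Bd (n L : ℕ) : Finset (Finset ℕ) :=
  (Finset.Icc 1 L).powerset.filter (fun O => 19 * n < 20 * O.card ∨ 3 ^ n ≤ nO L O)

/-- the good numbers of heads -/
def Tn (n : ℕ) : Finset ℕ := (Finset.range (n + 1)).filter fun t => 20 * t ≤ 19 * n

theorem decomp (M L n : ℕ) (S : Set ℕ) (x : ZMod (3 ^ n)) :
    (cnt M S n x : ℝ) = ∑ t ∈ Tn n, fg M L S n t x +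
      cP M n S (fun O => O ∩ Finset.Icc 1 L ∈ Bd n L) x := by
  classical
  rw [cnt_eq]
  simp only [fg_eq]
  unfold cP
  rw [Finset.sum_comm, ← Finset.sum_add_distrib]
  refine Finset.sum_congr rfl fun O _ => ?_
  by_cases hx : FO n O = x
  · simp only [hx, and_true, if_true]
    have hsub : O ∩ Finset.Icc 1 L ∈ (Finset.Icc 1 L).powerset :=
      Finset.mem_powerset.2 Finset.inter_subset_right
    by_cases hb : O ∩ Finset.Icc 1 L ∈ Bd n L
    · rw [if_pos hb]
      have h0 : ∀ t ∈ Tn n, (if O ∩ Finset.Icc 1 L ∈ gd n L t then (1 : ℝ) else 0) = 0 := by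
        intro t ht
        rw [if_neg]
        intro hg
        unfold gd at hg
        unfold Bd at hb
        unfold Tn at ht
        rw [Finset.mem_filter] at hg hb ht
        obtain ⟨-, hg1, hg2⟩ := hg
        rcases hb.2 with h | h
        · rw [hg1] at h
          omega
        · omega
      rw [Finset.sum_eq_zero h0]
      norm_num
    · rw [if_neg hb]
      have hb' : ¬ (19 * n < 20 * (O ∩ Finset.Icc 1 L).card ∨ 3 ^ n ≤ nO L (O ∩ Finset.Icc 1 L)) := by
        intro h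
        apply hb
        unfold Bd
        exact Finset.mem_filter.2 ⟨hsub, h⟩
      push Not at hb'
      have hT : (O ∩ Finset.Icc 1 L).card ∈ Tn n := by
        unfold Tn
        rw [Finset.mem_filter, Finset.mem_range]
        omega
      rw [Finset.sum_eq_single_of_mem _ hT, if_pos, add_zero]
      · unfold gd
        exact Finset.mem_filter.2 ⟨hsub, rfl, hb'.2⟩
      · intro t _ ht
        rw [if_neg]
        intro hg
        unfold gd at hg
        exact ht ((Finset.mem_filter.1 hg).2.1).symm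
  · simp [hx]

/-- the trivial bound -/
theorem hf_triv (N M : ℕ) (S : Set ℕ) :
    ∑ x, |HF N (fun x => (cnt M S (N + 1) x : ℝ)) x| ≤ 2 * 2 ^ M := by
  classical
  refine (hf_sum N _).trans ?_
  refine mul_le_mul_of_nonneg_left ?_ (by norm_num)
  have h1 : ∑ x : ZMod (3 ^ (N + 1)), |(cnt M S (N + 1) x : ℝ)| =
      ∑ x, cP M (N + 1) S (fun _ => True) x := by
    refine Finset.sum_congr rfl fun x _ => ?_
    rw [abs_of_nonneg (Nat.cast_nonneg _), cnt_eq]
  rw [h1]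
  obtain ⟨F, hF, hle⟩ := cP_sum M (N + 1) S (fun _ => True)
  refine hle.trans ?_
  have h2 : F.card ≤ 2 ^ M := by
    have h3 : F ⊆ (Finset.Icc 1 M).powerset := fun O hO => Finset.mem_powerset.2 (hF O hO).1
    refine (Finset.card_le_card h3).trans ?_
    rw [Finset.card_powerset, Nat.card_Icc, Nat.add_sub_cancel]
  exact_mod_cast h2

theorem exists_n0 (K : ℕ) : ∃ n0 : ℕ, 1 ≤ n0 ∧ ∀ n : ℕ, n0 ≤ n → n ^ K ≤ 3 ^ n := by
  have h := (isLittleO_pow_const_const_pow_of_one_lt (R := ℝ) K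
    (by norm_num : (1 : ℝ) < 3)).bound one_pos
  rw [Filter.eventually_atTop] at h
  obtain ⟨a, ha⟩ := h
  refine ⟨a + 1, by omega, fun n hn => ?_⟩
  have h1 := ha n (by omega)
  rw [one_mul, Real.norm_of_nonneg (by positivity), Real.norm_of_nonneg (by positivity)] at h1
  exact_mod_cast h1

theorem exp_bound (A n : ℕ) (hn : 1 ≤ n) :
    Real.exp (-((n : ℝ) / 40)) ≤ 40 ^ A * A.factorial / (n : ℝ) ^ A := by
  have hn0 : (0 : ℝ) < n := by exact_mod_cast hn
  have h := Real.pow_div_factorial_le_exp ((n : ℝ) / 40) (by positivity) A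
  rw [Real.exp_neg, le_div_iff₀ (by positivity)]
  have hE := Real.exp_pos ((n : ℝ) / 40)
  rw [inv_mul_le_iff₀ hE]
  rw [div_pow, div_div, div_le_iff₀ (by positivity)] at h
  exact h

theorem hfr (h1 : HfgStmt) (h2 : HfbStmt) (h3 : PrjStmt) : HfrStmt := by
  classical
  intro A
  obtain ⟨C', hC'1, hC'⟩ := h1 (2 * A + 3)
  obtain ⟨n0, hn01, hn0⟩ := exists_n0 (A + 1)
  have hC'0 : 0 < C' := lt_of_lt_of_le one_pos hC'1
  refine ⟨4 * C' + 2 * (40 ^ A * A.factorial) + 4 + 2 * (n0 : ℝ) ^ A, ?_, ?_⟩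
  · have e1 : (0 : ℝ) ≤ 40 ^ A * A.factorial := by positivity
    have e2 : (0 : ℝ) ≤ (n0 : ℝ) ^ A := by positivity
    linarith
  intro N M S hM hS
  -- the left side
  have hL : ∑ x : ZMod (3 ^ (N + 1)),
      |(cnt M S (N + 1) x : ℝ) - (cnt M S N (pj N (N + 1) x) : ℝ) / 3| =
      ∑ x, |HF N (fun x => (cnt M S (N + 1) x : ℝ)) x| := by
    refine Finset.sum_congr rfl fun x _ => ?_
    unfold HF
    have e := h3 M N (N + 1) S (pj N (N + 1) x) (Nat.le_succ N)
    have e' : ∑ y ∈ Finset.univ.filter (fun y => pj N (N + 1) y = pj N (N + 1) x),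
        (cnt M S (N + 1) y : ℝ) = (cnt M S N (pj N (N + 1) x) : ℝ) := by
      exact_mod_cast e
    rw [e']
    congr 1
    ring
  rw [hL]
  obtain ⟨n, hn⟩ : ∃ n, n = N + 1 := ⟨_, rfl⟩
  have hnR : (n : ℝ) = (N : ℝ) + 1 := by
    rw [hn]
    push_cast
    rfl
  have hn1 : 1 ≤ n := by omega
  have hnpos : (0 : ℝ) < n := by exact_mod_cast hn1
  rw [← hnR]
  rcases Nat.lt_or_ge n n0 with hlt | hge
  · -- small `n`
    refine (hf_triv N M S).trans ?_
    refine mul_le_mul_of_nonneg_right ?_ (by positivity)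
    rw [le_div_iff₀ (by positivity)]
    have e1 : (0 : ℝ) ≤ 40 ^ A * A.factorial := by positivity
    have e2 : (n : ℝ) ^ A ≤ (n0 : ℝ) ^ A :=
      pow_le_pow_left₀ hnpos.le (by exact_mod_cast hlt.le) A
    linarith
  -- large `n`
  have hK : n ^ (A + 1) ≤ 3 ^ n := hn0 n hge
  have hq : 3 ^ n / n ^ (A + 1) ≠ 0 := by
    have : 0 < 3 ^ n / n ^ (A + 1) := Nat.div_pos hK (by positivity)
    omega
  obtain ⟨L, hLdef⟩ : ∃ L, L = Nat.log 2 (3 ^ n / n ^ (A + 1)) := ⟨_, rfl⟩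
  have hL1 : 2 ^ L ≤ 3 ^ n / n ^ (A + 1) := hLdef ▸ Nat.pow_log_le_self 2 hq
  have hL2 : 3 ^ n / n ^ (A + 1) < 2 ^ (L + 1) := hLdef ▸ Nat.lt_pow_succ_log_self (by norm_num) _
  have hL3 : 2 ^ L * n ^ (A + 1) ≤ 3 ^ n :=
    (Nat.mul_le_mul_right _ hL1).trans (Nat.div_mul_le_self _ _)
  have hL4 : 3 ^ n < 2 ^ (L + 1) * n ^ (A + 1) :=
    (Nat.div_lt_iff_lt_mul (by positivity)).1 hL2
  have hL5 : 5 * L ≤ 8 * n := by
    have e1 : 2 ^ L ≤ 3 ^ n := hL1.trans (Nat.div_le_self _ _)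
    have e2 : 2 ^ (5 * L) ≤ 2 ^ (8 * n) := by
      calc 2 ^ (5 * L) = (2 ^ L) ^ 5 := by rw [mul_comm, pow_mul]
        _ ≤ (3 ^ n) ^ 5 := Nat.pow_le_pow_left e1 5
        _ = (3 ^ 5) ^ n := by rw [← pow_mul, ← pow_mul, mul_comm]
        _ ≤ (2 ^ 8) ^ n := Nat.pow_le_pow_left (by norm_num) n
        _ = 2 ^ (8 * n) := by rw [← pow_mul]
    exact (Nat.pow_le_pow_iff_right (by norm_num)).1 e2
  have hLM : L ≤ M := by omega
  -- the decomposition
  have hf : (fun x : ZMod (3 ^ (N + 1)) => (cnt M S (N + 1) x : ℝ)) =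
      fun x => ∑ t ∈ Tn (N + 1), fg M L S (N + 1) t x +
        cP M (N + 1) S (fun O => O ∩ Finset.Icc 1 L ∈ Bd (N + 1) L) x := by
    funext x
    exact decomp M L (N + 1) S x
  rw [hf]
  have hsum : ∑ x, |HF N (fun x => ∑ t ∈ Tn (N + 1), fg M L S (N + 1) t x +
        cP M (N + 1) S (fun O => O ∩ Finset.Icc 1 L ∈ Bd (N + 1) L) x) x| ≤
      ∑ t ∈ Tn (N + 1), ∑ x, |HF N (fg M L S (N + 1) t) x| +
        ∑ x, |HF N (cP M (N + 1) S (fun O => O ∩ Finset.Icc 1 L ∈ Bd (N + 1) L)) x| := by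
    rw [Finset.sum_comm, ← Finset.sum_add_distrib]
    refine Finset.sum_le_sum fun x _ => ?_
    rw [hf_lin N (Tn (N + 1)) (fun t => fg M L S (N + 1) t)]
    refine (abs_add_le _ _).trans (add_le_add (Finset.abs_sum_le_sum_abs _ _) le_rfl)
  refine hsum.trans ?_
  -- the good part
  have hgood : ∑ t ∈ Tn (N + 1), ∑ x, |HF N (fg M L S (N + 1) t) x| ≤
      4 * C' / (n : ℝ) ^ A * 2 ^ M := by
    have e1 : ∀ t ∈ Tn (N + 1), ∑ x, |HF N (fg M L S (N + 1) t) x| ≤
        C' / (n : ℝ) ^ (2 * A + 3) * (2 ^ M * (2 * (n : ℝ) ^ (A + 1))) := by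
      intro t ht
      unfold Tn at ht
      rw [Finset.mem_filter] at ht
      refine (hC' N L M t S hLM hS ht.2).trans ?_
      rw [← hnR, ← hn]
      refine mul_le_mul_of_nonneg_left ?_ (by positivity)
      refine mul_le_mul_of_nonneg_left ?_ (by positivity)
      have e2 : (3 : ℝ) ^ n / 2 ^ L ≤ 2 * (n : ℝ) ^ (A + 1) := by
        rw [div_le_iff₀ (by positivity)]
        have e3 : (3 : ℝ) ^ n ≤ 2 ^ (L + 1) * (n : ℝ) ^ (A + 1) := by exact_mod_cast hL4.le
        calc (3 : ℝ) ^ n ≤ 2 ^ (L + 1) * (n : ℝ) ^ (A + 1) := e3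
          _ = 2 * (n : ℝ) ^ (A + 1) * 2 ^ L := by ring
      have e4 : (1 : ℝ) ≤ (n : ℝ) ^ (A + 1) := one_le_pow₀ (by exact_mod_cast hn1)
      refine (Real.sqrt_le_sqrt e2).trans ?_
      rw [Real.sqrt_le_left (by positivity)]
      nlinarith only [e4]
    have e2 : ((Tn (N + 1)).card : ℝ) ≤ 2 * n := by
      have : (Tn (N + 1)).card ≤ N + 1 + 1 := by
        unfold Tn
        exact (Finset.card_filter_le _ _).trans (by rw [Finset.card_range])
      have h4 : ((Tn (N + 1)).card : ℝ) ≤ (n : ℝ) + 1 := by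
        rw [hn]
        exact_mod_cast this
      have h5 : (1 : ℝ) ≤ n := by exact_mod_cast hn1
      linarith
    refine (Finset.sum_le_sum e1).trans ?_
    rw [Finset.sum_const, nsmul_eq_mul]
    have e3 : 0 ≤ C' / (n : ℝ) ^ (2 * A + 3) * (2 ^ M * (2 * (n : ℝ) ^ (A + 1))) := by positivity
    refine (mul_le_mul_of_nonneg_right e2 e3).trans ?_
    have e4 : 2 * (n : ℝ) * (C' / (n : ℝ) ^ (2 * A + 3) * (2 ^ M * (2 * (n : ℝ) ^ (A + 1)))) =
        4 * C' / (n : ℝ) ^ A * 2 ^ M * (1 / n) := by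
      have : (n : ℝ) ^ (2 * A + 3) = (n : ℝ) ^ A * (n : ℝ) ^ (A + 1) * n * n := by ring
      rw [this]
      field_simp
      ring
    rw [e4]
    refine mul_le_of_le_one_right (by positivity) ?_
    rw [div_le_one hnpos]
    exact_mod_cast hn1
  -- the bad part
  have hbad : ∑ x, |HF N (cP M (N + 1) S (fun O => O ∩ Finset.Icc 1 L ∈ Bd (N + 1) L)) x| ≤
      2 * (2 ^ M * (40 ^ A * A.factorial / (n : ℝ) ^ A + 2 / (n : ℝ) ^ A)) := by
    refine (hf_sum N _).trans ?_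
    refine mul_le_mul_of_nonneg_left ?_ (by norm_num)
    have e0 : ∑ x, |cP M (N + 1) S (fun O => O ∩ Finset.Icc 1 L ∈ Bd (N + 1) L) x| =
        ∑ x, cP M (N + 1) S (fun O => O ∩ Finset.Icc 1 L ∈ Bd (N + 1) L) x :=
      Finset.sum_congr rfl fun x _ => abs_of_nonneg (cP_nonneg _ _ _ _ _)
    rw [e0]
    obtain ⟨F, hF, hle⟩ := cP_sum M (N + 1) S (fun O => O ∩ Finset.Icc 1 L ∈ Bd (N + 1) L)
    refine hle.trans ?_
    have e1 : (F.card : ℝ) ≤ (Bd (N + 1) L).card * 2 ^ (M - L) := by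
      exact_mod_cast bad_card M L (Bd (N + 1) L) F hF
    refine e1.trans ?_
    have e2 : ((Bd (N + 1) L).card : ℝ) ≤
        2 ^ L * (Real.exp (-((n : ℝ) / 40)) + L * 2 ^ L / 3 ^ n) := by
      have e3 := h2 n L hn1 hL5
      rw [← hn]
      unfold Bd
      exact e3
    refine (mul_le_mul_of_nonneg_right e2 (by positivity)).trans ?_
    have e4 : (2 : ℝ) ^ L * (Real.exp (-((n : ℝ) / 40)) + L * 2 ^ L / 3 ^ n) * 2 ^ (M - L) =
        2 ^ M * (Real.exp (-((n : ℝ) / 40)) + L * 2 ^ L / 3 ^ n) := by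
      have : (2 : ℝ) ^ M = 2 ^ L * 2 ^ (M - L) := by
        rw [← pow_add]
        congr 1
        omega
      rw [this]
      ring
    rw [e4]
    refine mul_le_mul_of_nonneg_left (add_le_add (exp_bound A n hn1) ?_) (by positivity)
    rw [div_le_div_iff₀ (by positivity) (by positivity)]
    have e5 : (2 : ℝ) ^ L * (n : ℝ) ^ (A + 1) ≤ 3 ^ n := by exact_mod_cast hL3
    have e6 : (L : ℝ) ≤ 2 * n := by
      have : L ≤ 2 * n := by omega
      exact_mod_cast this
    calc (L : ℝ) * 2 ^ L * (n : ℝ) ^ A ≤ (2 * n) * 2 ^ L * (n : ℝ) ^ A := by gcongr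
      _ = 2 * (2 ^ L * (n : ℝ) ^ (A + 1)) := by ring
      _ ≤ 2 * 3 ^ n := mul_le_mul_of_nonneg_left e5 (by norm_num)
  refine (add_le_add hgood hbad).trans ?_
  have e5 : 4 * C' / (n : ℝ) ^ A * 2 ^ M +
      2 * (2 ^ M * (40 ^ A * A.factorial / (n : ℝ) ^ A + 2 / (n : ℝ) ^ A)) =
      (4 * C' + 2 * (40 ^ A * A.factorial) + 4) / (n : ℝ) ^ A * 2 ^ M := by ring
  rw [e5]
  refine mul_le_mul_of_nonneg_right ?_ (by positivity)
  refine div_le_div_of_nonneg_right ?_ (by positivity)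
  have e6 : (0 : ℝ) ≤ 2 * (n0 : ℝ) ^ A := by positivity
  linarith

end Pool.Agent.WIR.H51
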